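import Pool.Agent.X90.DJ.Main

/-!
# Relations are identities for almost all tuples
-/

set_option autoImplicit false

namespace Pool.Agent.X90.DL

open Finset
open Pool.Agent.Y760.ZG (mz)
open Pool.Agent.Y760.ZF (sti stil)
open Pool.Agent.X90.DA (fx eval_fx eval_sum)
open Pool.Agent.X90.DB (Ad ix ex ex_nil ex_ne ad_ne lst prod_lst mem_lst)
open Pool.Agent.X90.DC
open Pool.Agent.X90.DD (ex_Zt eq_plane)

/-- the stuffle product of several patterns -/
def pstil {k : ℕ} : List (List (Lr k)) → List (List (Lr k))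
  | [] => [[]]
  | u :: M => (pstil M).flatMap (psti u)

lemma ix_pstil {k : ℕ} (s : Fin k → ℕ) (M : List (List (Lr k))) :
    stil (M.map (ix s)) = (pstil M).map (ix s) := by
  induction M with
  | nil =>
    rw [pstil, List.map_nil, stil]
    rfl
  | cons u M ih =>
    rw [List.map_cons, stil, ih, pstil, List.map_flatMap, List.flatMap_map]
    congr 1
    funext v
    exact ix_psti s u v

/-- the list of the patterns of a monomial -/
def plst {k r : ℕ} (w : Fin r → List (Lr k)) (m : Fin r → ℕ) : List (List (Lr k)) :=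
  (List.finRange r).flatMap fun i => List.replicate (m i) (w i)

lemma ix_plst {k r : ℕ} (s : Fin k → ℕ) (w : Fin r → List (Lr k)) (m : Fin r → ℕ) :
    (plst w m).map (ix s) = lst (fun i => ix s (w i)) m := by
  rw [plst, lst, List.map_flatMap]
  congr 1
  funext i
  rw [List.map_replicate]

lemma list_countG {α A : Type} [DecidableEq α] [CommRing A] (L : List α) (F : α → A) (s : Finset α)
    (hs : ∀ w ∈ L, w ∈ s) :
    (L.map F).sum = ∑ w ∈ s, ((L.countP (· = w) : ℕ) : A) * F w := by
  induction L with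
  | nil => simp
  | cons a L ih =>
    rw [List.map_cons, List.sum_cons, ih fun w hw => hs w (List.mem_cons_of_mem _ hw)]
    have h1 : ∀ w ∈ s, (((a :: L).countP (· = w) : ℕ) : A) * F w =
        ((L.countP (· = w) : ℕ) : A) * F w + if a = w then F w else 0 := by
      intro w _
      rw [List.countP_cons]
      by_cases h : a = w
      · simp [h, add_mul]
      · simp [h]
    rw [Finset.sum_congr rfl h1, Finset.sum_add_distrib, Finset.sum_ite_eq,
      if_pos (hs a List.mem_cons_self), add_comm]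

/-- the patterns of the monomials -/
def Lp {k r : ℕ} (D : ℕ) (w : Fin r → List (Lr k)) : Finset (List (Lr k)) :=
  (univ : Finset (Fin r → Fin (D + 1))).biUnion fun e =>
    (pstil (plst w fun i => (e i : ℕ))).toFinset

/-- the coefficient of a pattern -/
noncomputable def cp {A : Type} [CommRing A] {t k r : ℕ} (D : ℕ) (P : MvPolynomial (Fin t ⊕ Fin r) ℤ)
    (y : Fin t → A) (w : Fin r → List (Lr k)) (u : List (Lr k)) : A :=
  ∑ e : Fin r → Fin (D + 1), (∑ m : Fin t → Fin (D + 1),
    ((P.coeff (fx (Sum.elim m e)) : ℤ) : A) * ∏ j, y j ^ ((m j : Fin (D + 1)) : ℕ)) *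
      (((pstil (plst w fun i => (e i : ℕ))).countP (· = u) : ℕ) : A)

/-- the coefficient is a polynomial in the constants -/
lemma cp_aeval {A : Type} [CommRing A] {t k r : ℕ} (D : ℕ) (P : MvPolynomial (Fin t ⊕ Fin r) ℤ)
    (y : Fin t → A) (w : Fin r → List (Lr k)) (u : List (Lr k)) :
    MvPolynomial.aeval y (cp D P (MvPolynomial.X : Fin t → MvPolynomial (Fin t) ℤ) w u) =
      cp D P y w u := by
  simp only [cp, map_sum, map_mul, map_intCast, map_prod, map_pow, MvPolynomial.aeval_X,
    map_natCast]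

lemma val_pat {A : Type} [CommRing A] {t k r D : ℕ} {P : MvPolynomial (Fin t ⊕ Fin r) ℤ}
    (hP : P.totalDegree ≤ D) (y : Fin t → A) (w : Fin r → List (Lr k)) (hw : ∀ i, Gd (w i))
    (Z : List ℕ → A) (hZ : ∀ u v, Ad u → Ad v → Z u * Z v = ((sti u v).map Z).sum)
    (s : Fin k → ℕ) (hs : ∀ j, 2 ≤ s j) :
    MvPolynomial.aeval (Sum.elim y fun i => ex Z (ix s (w i))) P =
      ∑ u ∈ Lp D w, cp D P y w u * ex Z (ix s u) := by
  classical
  rw [eval_sum hP]
  have h1 : ∀ e : Fin r → Fin (D + 1), ∏ i, ex Z (ix s (w i)) ^ ((e i : Fin (D + 1)) : ℕ) =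
      ∑ u ∈ Lp D w, (((pstil (plst w fun i => (e i : ℕ))).countP (· = u) : ℕ) : A) *
        ex Z (ix s u) := by
    intro e
    rw [← prod_lst (fun i => ix s (w i)) (fun i => (e i : ℕ)) (ex Z), prod_ex' hZ _ fun u hu => by
      obtain ⟨i, rfl⟩ := mem_lst hu
      exact ix_Ad hs (hw i), ← ix_plst, ix_pstil, List.map_map]
    refine list_countG _ (ex Z ∘ ix s) _ fun u hu => ?_
    rw [Lp, mem_biUnion]
    exact ⟨e, mem_univ _, List.mem_toFinset.2 hu⟩
  simp only [h1, mul_sum]
  rw [sum_comm]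
  refine sum_congr rfl fun u _ => ?_
  rw [cp, sum_mul]
  exact sum_congr rfl fun e _ => by ring

/-- linear independence of the words, complex coefficients -/
lemma words_indepC (n : ℕ) : ∀ (F : Finset (List ℕ)) (c : List ℕ → ℂ), (∀ w ∈ F, w.length ≤ n) →
    (∀ w ∈ F, ∀ a ∈ w, 1 ≤ a) → (∃ w ∈ F, c w ≠ 0) →
    ∃ ts : List ℂ, ∑ w ∈ F, c w * Zt ts w ≠ 0 := by
  classical
  induction n with
  | zero =>
    intro F c hF _ ⟨w, hw, hc⟩
    have h1 : ∀ w ∈ F, w = [] := fun w hw => List.eq_nil_of_length_eq_zero (by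
      have := hF w hw
      omega)
    have h2 : F = {[]} := by
      ext x
      rw [mem_singleton]
      exact ⟨h1 x, fun h => h ▸ (h1 w hw) ▸ hw⟩
    refine ⟨[], ?_⟩
    rw [h2, sum_singleton, Zt_nil, mul_one]
    rw [h1 w hw] at hc
    exact hc
  | succ n ih =>
    intro F c hF hF1 hc
    by_cases hcon : ∃ w ∈ F, w ≠ [] ∧ c w ≠ 0
    · obtain ⟨w, hw, hne, hcw⟩ := hcon
      obtain ⟨a, l, rfl⟩ := List.exists_cons_of_ne_nil hne
      -- the words with first letter `a`
      set Fs : ℕ → Finset (List ℕ) := fun s => (F.filter fun x => x.head? = some s).image List.tail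
        with hFs
      have hmemF : ∀ s x, x ∈ Fs s ↔ s :: x ∈ F := by
        intro s x
        rw [hFs, mem_image]
        constructor
        · rintro ⟨y, hy, rfl⟩
          rw [mem_filter] at hy
          cases y with
          | nil => simp at hy
          | cons b y =>
            rw [List.head?_cons, Option.some.injEq] at hy
            rw [List.tail_cons, ← hy.2]
            exact hy.1
        · intro h
          exact ⟨s :: x, mem_filter.2 ⟨h, rfl⟩, rfl⟩
      obtain ⟨ts, hts⟩ := ih (Fs a) (fun x => c (a :: x)) (fun x hx => by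
          have := hF _ ((hmemF a x).1 hx)
          rw [List.length_cons] at this
          omega) (fun x hx b hb => hF1 _ ((hmemF a x).1 hx) b (List.mem_cons_of_mem _ hb))
        ⟨l, (hmemF a l).2 hw, hcw⟩
      -- a polynomial in the new variable
      set P : Polynomial ℂ := Polynomial.C (∑ x ∈ F, c x * Zt ts x) +
        ∑ x ∈ F.filter (fun x => x ≠ []), Polynomial.C (c x * Zt ts x.tail) *
          Polynomial.X ^ x.headI with hP
      have ha : 1 ≤ a := hF1 _ hw a List.mem_cons_self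
      have hcoef : P.coeff a = ∑ x ∈ Fs a, c (a :: x) * Zt ts x := by
        rw [hP, Polynomial.coeff_add, Polynomial.coeff_C, if_neg (by omega), zero_add,
          Polynomial.finsetSum_coeff]
        simp only [Polynomial.coeff_C_mul, Polynomial.coeff_X_pow]
        have h1 : ∑ x ∈ F.filter (fun x => x ≠ []),
            c x * Zt ts x.tail * (if a = x.headI then 1 else 0) =
            ∑ x ∈ F.filter (fun x => x.head? = some a), c x * Zt ts x.tail := by
          rw [sum_filter, sum_filter]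
          refine sum_congr rfl fun x _ => ?_
          cases x with
          | nil => simp
          | cons b x =>
            by_cases h : a = b
            · subst h
              simp
            · have h' : ¬ b = a := fun h0 => h h0.symm
              simp [h, h']
        rw [h1, hFs]
        rw [sum_image]
        · refine sum_congr rfl fun x hx => ?_
          rw [mem_filter] at hx
          cases x with
          | nil => simp at hx
          | cons b x =>
            rw [List.head?_cons, Option.some.injEq] at hx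
            rw [List.tail_cons, hx.2]
        · intro x hx y hy hxy
          rw [mem_coe, mem_filter] at hx hy
          cases x with
          | nil => simp at hx
          | cons b x =>
            cases y with
            | nil => simp at hy
            | cons b' y =>
              rw [List.head?_cons, Option.some.injEq] at hx hy
              rw [List.tail_cons, List.tail_cons] at hxy
              rw [hx.2, hy.2, hxy]
      have hPne : P ≠ 0 := by
        intro h0
        apply hts
        rw [← hcoef, h0, Polynomial.coeff_zero]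
      obtain ⟨t, ht⟩ : ∃ t : ℂ, P.eval t ≠ 0 := by
        by_contra h
        push Not at h
        exact hPne (Polynomial.funext fun t => by rw [h t, Polynomial.eval_zero])
      refine ⟨t :: ts, ?_⟩
      have hev : P.eval t = ∑ x ∈ F, c x * Zt (t :: ts) x := by
        rw [hP, Polynomial.eval_add, Polynomial.eval_C, Polynomial.eval_finsetSum, sum_filter,
          ← sum_add_distrib]
        refine sum_congr rfl fun x _ => ?_
        cases x with
        | nil => rw [if_neg (by simp), Zt_nil, Zt_nil, add_zero]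
        | cons b x =>
          rw [if_pos (List.cons_ne_nil _ _), Polynomial.eval_mul, Polynomial.eval_C,
            Polynomial.eval_pow, Polynomial.eval_X, List.tail_cons, List.headI_cons, Zt]
          ring
      rw [← hev]
      exact ht
    · push Not at hcon
      obtain ⟨w, hw, hcw⟩ := hc
      have hw0 : w = [] := by
        by_contra h
        exact hcw (hcon w hw h)
      subst hw0
      refine ⟨[], ?_⟩
      rw [sum_eq_single []]
      · rw [Zt_nil, mul_one]
        exact hcw
      · intro x hx hne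
        rw [hcon x hx hne, zero_mul]
      · intro h
        exact absurd hw h

/-- tuples at which two patterns of a finite set have the same value -/
lemma card_coll {k : ℕ} (F : Finset (List (Lr k))) (κ N : ℕ) (hN : 1 ≤ N) (B : Finset (Fin k → ℕ))
    (hB : ∀ s ∈ B, (∀ j, N ≤ s j ∧ s j ≤ κ * N) ∧ ¬ Set.InjOn (ix s) (F : Set (List (Lr k)))) :
    B.card ≤ F.card * F.card * κ ^ (k - 1) * N ^ (k - 1) := by
  classical
  have h1 : B ⊆ (F ×ˢ F).biUnion fun q =>
      if q.1 = q.2 then ∅ else B.filter fun s => ix s q.1 = ix s q.2 := by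
    intro s hs
    obtain ⟨-, h2⟩ := hB s hs
    rw [Set.InjOn] at h2
    push Not at h2
    obtain ⟨u, hu, v, hv, huv, hne⟩ := h2
    rw [mem_biUnion]
    refine ⟨(u, v), mem_product.2 ⟨hu, hv⟩, ?_⟩
    rw [if_neg hne, mem_filter]
    exact ⟨hs, huv⟩
  refine (card_le_card h1).trans (card_biUnion_le.trans ?_)
  have h2 : ∀ q ∈ F ×ˢ F, (if q.1 = q.2 then
      (∅ : Finset (Fin k → ℕ)) else B.filter fun s => ix s q.1 = ix s q.2).card ≤
      κ ^ (k - 1) * N ^ (k - 1) := by
    intro q _
    split_ifs with h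
    · simp
    · refine (eq_plane (κ := κ) (N := N) h _ fun s hs => ?_).trans ?_
      · rw [mem_filter] at hs
        exact ⟨mem_bx.2 (hB s hs.1).1, hs.2⟩
      · rw [← mul_pow]
        exact Nat.pow_le_pow_left (by omega) _
  refine (sum_le_sum h2).trans ?_
  rw [sum_const, card_product, smul_eq_mul, mul_assoc, mul_assoc, mul_assoc]

lemma len_le {k : ℕ} (F : Finset (List (Lr k))) : ∃ ℓ : ℕ, ∀ u ∈ F, u.length ≤ ℓ :=
  ⟨∑ u ∈ F, u.length, fun _ hu =>
    single_le_sum (f := fun u : List (Lr k) => u.length) (fun _ _ => Nat.zero_le _) hu⟩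

/-- a relation that holds formally at a generic tuple is an identity -/
lemma ident {t k r D : ℕ} {P : MvPolynomial (Fin t ⊕ Fin r) ℤ} (hP : P.totalDegree ≤ D)
    (y : Fin t → ℂ) (w : Fin r → List (Lr k)) (hw : ∀ i, Gd (w i)) (s : Fin k → ℕ)
    (hs : ∀ j, 2 ≤ s j) (hpos : ∀ u ∈ Lp D w, ∀ a ∈ ix s u, 1 ≤ a)
    (hinj : Set.InjOn (ix s) (Lp D w : Set (List (Lr k))))
    (hT : ∀ ts : List ℂ, MvPolynomial.aeval (Sum.elim y fun i => ex (Zt ts) (ix s (w i))) P = 0) :
    ∀ u ∈ Lp D w, cp D P y w u = 0 := by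
  classical
  by_contra hcon
  push Not at hcon
  obtain ⟨u0, hu0, hne⟩ := hcon
  set d : List ℕ → ℂ := fun x => ∑ u ∈ Lp D w with ix s u = x, cp D P y w u with hd
  have hdi : ∀ u ∈ Lp D w, d (ix s u) = cp D P y w u := by
    intro u hu
    have h1 : ((Lp D w).filter fun u' => ix s u' = ix s u) = {u} := by
      ext u'
      rw [mem_filter, mem_singleton]
      constructor
      · exact fun h => hinj h.1 hu h.2
      · rintro rfl
        exact ⟨hu, rfl⟩
    simp only [hd]
    rw [h1, sum_singleton]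
  obtain ⟨ℓ, hℓ⟩ := len_le (Lp D w)
  obtain ⟨ts, hts⟩ := words_indepC ℓ ((Lp D w).image (ix s)) d (fun x hx => by
      rw [mem_image] at hx
      obtain ⟨u, hu, rfl⟩ := hx
      rw [ix, List.length_map]
      exact hℓ u hu) (fun x hx b hb => by
      rw [mem_image] at hx
      obtain ⟨u, hu, rfl⟩ := hx
      exact hpos u hu b hb)
    ⟨ix s u0, mem_image_of_mem _ hu0, by rw [hdi u0 hu0]; exact hne⟩
  apply hts
  rw [sum_image hinj, ← hT ts, val_pat hP y w hw (Zt ts) (fun u v _ _ => Zt_mul ts u v) s hs]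
  refine sum_congr rfl fun u hu => ?_
  rw [hdi u hu, ex_Zt]

lemma pstil_ok {k : ℕ} (M : List (List (Lr k))) (hM : ∀ w ∈ M, ∀ a ∈ w, a.2 ≠ 0 ∨ 1 ≤ a.1) :
    ∀ u ∈ pstil M, ∀ a ∈ u, a.2 ≠ 0 ∨ 1 ≤ a.1 := by
  induction M with
  | nil =>
    intro u hu
    rw [pstil, List.mem_singleton] at hu
    rw [hu]
    simp
  | cons w M ih =>
    intro u hu
    rw [pstil, List.mem_flatMap] at hu
    obtain ⟨v, hv, hu⟩ := hu
    exact psti_ok w v (hM w List.mem_cons_self)
      (ih (fun w' hw' => hM w' (List.mem_cons_of_mem _ hw')) v hv) u hu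

lemma Lp_ok {k r D : ℕ} {w : Fin r → List (Lr k)} (hw : ∀ i, Gd (w i)) :
    ∀ u ∈ Lp D w, ∀ a ∈ u, a.2 ≠ 0 ∨ 1 ≤ a.1 := by
  intro u hu
  rw [Lp, mem_biUnion] at hu
  obtain ⟨e, -, hu⟩ := hu
  rw [List.mem_toFinset] at hu
  refine pstil_ok _ (fun w' hw' => ?_) u hu
  rw [plst, List.mem_flatMap] at hw'
  obtain ⟨i, -, hi⟩ := hw'
  rw [List.eq_of_mem_replicate hi]
  exact (hw i).2

/-- `P` vanishes at all tuples and for all families with the relations of weight at most `Wt` -/
def Fml {t k r : ℕ} (Wt : ℕ) (x : Fin t → ℂ) (w : Fin r → List (Lr k))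
    (P : MvPolynomial (Fin t ⊕ Fin r) ℤ) : Prop :=
  ∀ (A : Type) [CommRing A] [Algebra ℚ A] (y : Fin t → A) (Z : List ℕ → A),
    Rel Wt x y Z → (∀ u v, Ad u → Ad v → Z u * Z v = ((sti u v).map Z).sum) →
    ∀ s : Fin k → ℕ, (∀ j, 2 ≤ s j) →
      MvPolynomial.aeval (Sum.elim y fun i => ex Z (ix s (w i))) P = 0

/-- **relations of bounded degree and height are formal identities, for almost all tuples** -/
theorem par (t k r D : ℕ) (w : Fin r → List (Lr k)) (hw : ∀ i, Ge (w i)) (Wt : ℕ)
    (hWt : ∀ i, fw (w i) ≤ Wt) (κ : ℕ) :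
    ∃ K : ℕ, ∀ (C : ℝ) (x : Fin t → ℂ), ∃ N0 : ℕ, ∀ N : ℕ, N0 ≤ N → ∀ B : Finset (Fin k → ℕ),
      (∀ s ∈ B, (∀ j, N ≤ s j ∧ s j ≤ κ * N) ∧
        ∃ P : MvPolynomial (Fin t ⊕ Fin r) ℤ, P.totalDegree ≤ D ∧
          (∀ m, |((P.coeff m : ℤ) : ℝ)| ≤ C ^ N) ∧
          MvPolynomial.aeval (Sum.elim x fun i => ((mz (ix s (w i)) : ℝ) : ℂ)) P = 0 ∧
          ¬ Fml Wt x w P) →
      B.card ≤ K * N ^ (k - 1) := by
  classical
  -- the decompositions
  have h1 : ∀ i, ∃ L : List (ℤ × List ℕ × List (Lr k)),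
      (∀ e ∈ L, (e.2.1 = [] ∨ Ad e.2.1) ∧ e.2.1.sum ≤ Wt ∧ Gd e.2.2) ∧
      ∀ (A : Type) [CommRing A] (Z : List ℕ → A),
        (∀ u v, Ad u → Ad v → Z u * Z v = ((sti u v).map Z).sum) →
        ∀ s : Fin k → ℕ, (∀ j, 2 ≤ s j) → ex Z (ix s (w i)) =
          (L.map fun e => (e.1 : A) * (ex Z e.2.1 * ex Z (ix s e.2.2))).sum := by
    intro i
    obtain ⟨p, v, -, h2, h3, h4⟩ := exists_prefix (w i) (hw i).2
    obtain ⟨L, hL1, hL2⟩ := dec p.length p le_rfl (ge_prefix (h3 ▸ hw i)) v h2
    refine ⟨L, fun e he => ?_, fun A _ Z hZ s hs => ?_⟩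
    · obtain ⟨g1, g2, g3⟩ := hL1 e he
      exact ⟨g1, g2.trans (h4 ▸ hWt i), g3⟩
    · rw [h3, ix_append, ix_fp]
      exact hL2 A Z hZ s hs
  choose L hL1 hL2 using h1
  -- the variables
  set J : Type := Σ i : Fin r, Fin (L i).length with hJ
  set m : ℕ := Fintype.card J with hm
  let e : J ≃ Fin m := Fintype.equivFin J
  let val : Fin m → ℤ × List ℕ × List (Lr k) := fun j => (L (e.symm j).1).get (e.symm j).2
  have hval : ∀ j, ((val j).2.1 = [] ∨ Ad (val j).2.1) ∧ (val j).2.1.sum ≤ Wt ∧ Gd (val j).2.2 :=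
    fun j => hL1 _ _ (List.get_mem _ _)
  have hvale : ∀ (i : Fin r) (j : Fin (L i).length), val (e ⟨i, j⟩) = (L i).get j := by
    intro i j
    show (L (e.symm (e ⟨i, j⟩)).1).get (e.symm (e ⟨i, j⟩)).2 = _
    rw [e.symm_apply_apply]
  obtain ⟨G, hG1, hG2⟩ : ∃ G : Fin t ⊕ Fin r → MvPolynomial (Fin (t + m) ⊕ Fin m) ℤ,
      (∀ (A : Type) [CommRing A] (X' : Fin (t + m) → A) (Y' : Fin m → A) (j : Fin t),
        MvPolynomial.aeval (Sum.elim X' Y') (G (Sum.inl j)) = X' (Fin.castAdd m j)) ∧
      (∀ (A : Type) [CommRing A] (X' : Fin (t + m) → A) (Y' : Fin m → A) (i : Fin r),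
        MvPolynomial.aeval (Sum.elim X' Y') (G (Sum.inr i)) = ∑ j : Fin (L i).length,
          ((((L i).get j).1 : ℤ) : A) * (X' (Fin.natAdd t (e ⟨i, j⟩)) * Y' (e ⟨i, j⟩))) := by
    refine ⟨Sum.elim (fun j => MvPolynomial.X (Sum.inl (Fin.castAdd m j)))
      (fun i => ∑ j : Fin (L i).length, ((((L i).get j).1 : ℤ) : MvPolynomial _ ℤ) *
        (MvPolynomial.X (Sum.inl (Fin.natAdd t (e ⟨i, j⟩))) * MvPolynomial.X (Sum.inr (e ⟨i, j⟩)))),
      fun A _ X' Y' j => ?_, fun A _ X' Y' i => ?_⟩
    · simp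
    · simp
  obtain ⟨D', S, hS, hsub⟩ := subst_bound G D
  set v : Fin m → List (Lr k) := fun j => (val j).2.2 with hv
  have hvG : ∀ j, Gd (v j) := fun j => (hval j).2.2
  obtain ⟨K, hK⟩ := few (t + m) k m D' v hvG κ
  refine ⟨K + (Lp D' v).card * (Lp D' v).card * κ ^ (k - 1), fun C x => ?_⟩
  set x' : Fin (t + m) → ℂ := Fin.append x fun j => ((mz (val j).2.1 : ℝ) : ℂ) with hx'
  obtain ⟨N0, hN0⟩ := hK ((1 + |C|) * (1 + S)) x'
  refine ⟨N0 + 2, fun N hN B hB => ?_⟩
  rw [← card_filter_add_card_filter_not (s := B)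
    (fun s => Set.InjOn (ix s) (Lp D' v : Set (List (Lr k)))), add_mul]
  refine Nat.add_le_add (hN0 N (by omega) _ fun s hs => ?_)
    (card_coll (Lp D' v) κ N (by omega) _ fun s hs => ?_)
  swap
  · rw [mem_filter] at hs
    exact ⟨(hB s hs.1).1, hs.2⟩
  rw [mem_filter] at hs
  obtain ⟨hsB, hsi⟩ := hs
  obtain ⟨hs1, P, hPD, hPC, hP0, hPne⟩ := hB s hsB
  have hs2 : ∀ j, 2 ≤ s j := fun j => le_trans (by omega) (hs1 j).1
  -- the value of the new polynomial
  have hcomp : ∀ (A : Type) [CommRing A] (y : Fin t → A) (Z : List ℕ → A),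
      (∀ u v, Ad u → Ad v → Z u * Z v = ((sti u v).map Z).sum) →
      ∀ s : Fin k → ℕ, (∀ j, 2 ≤ s j) →
      MvPolynomial.aeval (Sum.elim (Fin.append y fun j => ex Z (val j).2.1)
        fun j => ex Z (ix s (v j))) (MvPolynomial.aeval G P : MvPolynomial _ ℤ) =
      MvPolynomial.aeval (Sum.elim y fun i => ex Z (ix s (w i))) P := by
    intro A _ y Z hZ s hs2
    rw [← AlgHom.comp_apply]
    congr 1
    refine MvPolynomial.algHom_ext fun i => ?_
    rw [AlgHom.comp_apply, MvPolynomial.aeval_X, MvPolynomial.aeval_X]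
    cases i with
    | inl j =>
      rw [hG1, Fin.append_left]
      rfl
    | inr i =>
      rw [hG2, Sum.elim_inr, hL2 i A Z hZ s hs2, sum_list]
      refine sum_congr rfl fun j _ => ?_
      rw [Fin.append_right, hv]
      simp only [hvale]
  refine ⟨hs1, MvPolynomial.aeval G P, (hsub P hPD).1, fun m' => ?_, ?_, fun hT => hPne ?_⟩
  · have hCN : ∀ m, |((P.coeff m : ℤ) : ℝ)| ≤ |C| ^ N := fun m =>
        (hPC m).trans ((le_abs_self _).trans (abs_pow _ _).le)
    refine ((hsub P hPD).2 (|C| ^ N) (by positivity) hCN m').trans ?_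
    rw [mul_pow]
    refine mul_le_mul (pow_le_pow_left₀ (abs_nonneg _) (by linarith) _) ?_ hS (by positivity)
    exact (by linarith : S ≤ 1 + S).trans (le_self_pow₀ (by linarith) (by omega))
  · have h2 := hcomp ℂ x (fun u => ((mz u : ℝ) : ℂ)) mz_stuffle_C s hs2
    simp only [ex_mz] at h2
    rw [hx', h2, hP0]
  · -- the coefficients of the patterns vanish
    have h3 := ident (hsub P hPD).1 x' v hvG s hs2
      (fun u hu a ha => ix_pos (fun j => le_trans (by norm_num) (hs2 j)) (Lp_ok hvG u hu) a ha) hsi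
      (fun ts => hT ℂ x' (Zt ts) (fun _ h => h) fun u v _ _ => Zt_mul ts u v)
    intro A _ _ y Z hR hZ s' hs'
    -- the relations
    set ψ : Fin (t + m) → MvPolynomial (Fin t ⊕ {p : List ℕ // Ad p ∧ p.sum ≤ Wt}) ℤ :=
      Fin.append (fun j => MvPolynomial.X (Sum.inl j)) fun j =>
        if h : Ad (val j).2.1 then MvPolynomial.X (Sum.inr ⟨(val j).2.1, h, (hval j).2.1⟩) else 1
      with hψ
    have hψ' : ∀ (A : Type) [CommRing A] (y : Fin t → A) (Z : List ℕ → A)
        (Q : MvPolynomial (Fin (t + m)) ℤ),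
        MvPolynomial.aeval (Sum.elim y fun p : {p : List ℕ // Ad p ∧ p.sum ≤ Wt} => Z p.1)
          (MvPolynomial.aeval ψ Q : MvPolynomial _ ℤ) =
        MvPolynomial.aeval (Fin.append y fun j => ex Z (val j).2.1) Q := by
      intro A _ y Z Q
      rw [← AlgHom.comp_apply]
      congr 1
      refine MvPolynomial.algHom_ext fun i => ?_
      rw [AlgHom.comp_apply, MvPolynomial.aeval_X, MvPolynomial.aeval_X]
      refine Fin.addCases (fun j => ?_) (fun j => ?_) i
      · rw [hψ, Fin.append_left, Fin.append_left, MvPolynomial.aeval_X, Sum.elim_inl]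
      · rw [hψ, Fin.append_right, Fin.append_right]
        rcases (hval j).1 with h | h
        · rw [dif_neg (by rw [h]; exact id), map_one, h, ex_nil]
        · rw [dif_pos h, MvPolynomial.aeval_X, Sum.elim_inr, ex_ne Z (ad_ne h)]
    have h5 : ∀ u ∈ Lp D' v, cp D' (MvPolynomial.aeval G P : MvPolynomial _ ℤ)
        (Fin.append y fun j => ex Z (val j).2.1) v u = 0 := by
      intro u hu
      rw [← cp_aeval, ← hψ']
      refine hR _ ?_
      rw [hψ' ℂ x fun u => ((mz u : ℝ) : ℂ)]
      simp only [ex_mz]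
      rw [← hx', cp_aeval]
      exact h3 u hu
    rw [← hcomp A y Z hZ s' hs',
      val_pat (hsub P hPD).1 (Fin.append y fun j => ex Z (val j).2.1) v hvG Z hZ s' hs']
    exact sum_eq_zero fun u hu => by rw [h5 u hu, zero_mul]

end Pool.Agent.X90.DL
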